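import Pool.Agent.QUD.StmtsC
import Pool.Agent.Helper5_PM.M061

/-!
QUD, row CRW: the loops in a wedge which visit both sides.
-/

set_option autoImplicit false

namespace Pool.Agent.QUD.H21

open MeasureTheory Complex Filter Topology ProbabilityTheory Pool.Agent.H16Iso Pool.Agent.H62T
open Pool.Agent.H60K (kME us hh)
open Pool.Agent.H60K.H25 (SS kME_diag mem_AE_iff measurableSet_SS2)
open scoped ENNReal NNReal

/-- the linear map of the pair of functionals -/
noncomputable def pm (u v : ℂ) : ℂ →ₗ[ℝ] ℂ where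
  toFun x := ⟨ip u x, ip v x⟩
  map_add' x y := by
    apply Complex.ext <;> simp only [ip, Complex.add_re, Complex.add_im] <;> ring
  map_smul' c x := by
    apply Complex.ext <;>
      simp only [ip, RingHom.id_apply, Complex.smul_re, Complex.smul_im, smul_eq_mul] <;> ring

theorem pm_det (u v : ℂ) : LinearMap.det (pm u v) = u.re * v.im - u.im * v.re := by
  rw [← LinearMap.det_toMatrix Complex.basisOneI, Matrix.det_fin_two]
  simp only [LinearMap.toMatrix_apply, Complex.coe_basisOneI, Complex.coe_basisOneI_repr,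
    Matrix.cons_val_zero, Matrix.cons_val_one]
  simp only [pm, LinearMap.coe_mk, AddHom.coe_mk, ip, Complex.one_re, Complex.one_im, Complex.I_re,
    Complex.I_im]
  ring

/-- area of a parallelogram -/
theorem area (u v : ℂ) (a b : ℝ) (hd : u.re * v.im - u.im * v.re ≠ 0) :
    volume {x : ℂ | (-a < ip u x ∧ ip u x < 0) ∧ (-b < ip v x ∧ ip v x < 0)} =
      ENNReal.ofReal |(u.re * v.im - u.im * v.re)⁻¹| * (ENNReal.ofReal a * ENNReal.ofReal b) := by
  have h1 : {x : ℂ | (-a < ip u x ∧ ip u x < 0) ∧ (-b < ip v x ∧ ip v x < 0)} =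
      pm u v ⁻¹' (measurableEquivRealProd ⁻¹' (Set.Ioo (-a) 0 ×ˢ Set.Ioo (-b) 0)) := by
    ext x
    rfl
  rw [h1, Measure.addHaar_preimage_linearMap volume (by rw [pm_det]; exact hd), pm_det,
    volume_preserving_equiv_real_prod.measure_preimage
      (measurableSet_Ioo.prod measurableSet_Ioo).nullMeasurableSet,
    Measure.volume_eq_prod, Measure.prod_prod, Real.volume_Ioo, Real.volume_Ioo]
  simp only [sub_neg_eq_add, zero_add]

theorem us1 (η1 η2 : ℝ) : us η1 η2 1 = ⟨-Real.sin η1, Real.cos η1⟩ := by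
  unfold us
  rw [if_neg (by decide), if_pos rfl]
  apply Complex.ext
  · rw [Complex.I_mul_re, Complex.exp_ofReal_mul_I_im]
  · rw [Complex.I_mul_im, Complex.exp_ofReal_mul_I_re]

theorem us2 (η1 η2 : ℝ) : us η1 η2 2 = ⟨-Real.sin η2, -Real.cos η2⟩ := by
  unfold us
  rw [if_neg (by decide), if_neg (by decide)]
  have h : -((η2 : ℂ) * I) = ((-η2 : ℝ) : ℂ) * I := by
    push_cast
    ring
  rw [h]
  apply Complex.ext
  · rw [Complex.neg_re, Complex.I_mul_re, Complex.exp_ofReal_mul_I_im, Real.sin_neg]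
    ring
  · rw [Complex.neg_im, Complex.I_mul_im, Complex.exp_ofReal_mul_I_re, Real.cos_neg]

theorem us_norm (η1 η2 : ℝ) (s : Fin 3) (hs : s = 1 ∨ s = 2) : ‖us η1 η2 s‖ = 1 := by
  have h : ‖us η1 η2 s‖ ^ 2 = 1 ^ 2 := by
    rcases hs with rfl | rfl
    · rw [us1, Complex.sq_norm, Complex.normSq_apply]
      have := Real.sin_sq_add_cos_sq η1
      simp only
      nlinarith
    · rw [us2, Complex.sq_norm, Complex.normSq_apply]
      have := Real.sin_sq_add_cos_sq η2
      simp only
      nlinarith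
  exact (pow_left_inj₀ (norm_nonneg _) zero_le_one two_ne_zero).1 h

theorem crw : CrwStmt := by
  intro η1 η2 t h1 h2 hα ht
  set α := η1 + η2 with hαd
  set u := us η1 η2 with hu
  set W : Set ℂ := {x | ip (u 1) x < 0 ∧ ip (u 2) x < 0} with hW
  have hsin : 0 < Real.sin α := Real.sin_pos_of_pos_of_lt_pi (by linarith) hα
  have hst : 0 < Real.sqrt t := Real.sqrt_pos.2 ht
  have hM := mom osc_stmt
  obtain ⟨hmeas, hnn, hbd, hint⟩ := hM
  have hG : G t 0 = 1 / (4 * Real.pi * t) := by
    unfold G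
    simp
  have hGpos : 0 < G t 0 := by
    rw [hG]
    have := Real.pi_pos
    positivity
  have hdet : (u 1).re * (u 2).im - (u 1).im * (u 2).re = Real.sin α := by
    rw [hu, us1, us2, hαd, Real.sin_add]
    simp only
    ring
  have hm2 := measurableSet_SS2 u (hh 0) {1, 2} ∅ t
  have hWm : MeasurableSet W :=
    ((isOpen_lt (H60K.H25.ip_cont _) continuous_const).inter
      (isOpen_lt (H60K.H25.ip_cont _) continuous_const)).measurableSet
  have hfun : (fun x => kME u (hh 0) {1, 2} ∅ t x x) =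
      fun x => G t 0 * (PP (SS u (hh 0) {1, 2} ∅ t x)).toReal :=
    funext fun x => kME_diag u (hh 0) {1, 2} ∅ ht x
  have hmeas1 : AEMeasurable (fun x => PP (SS u (hh 0) {1, 2} ∅ t x)) (volume.restrict W) :=
    (measurable_measure_prodMk_left hm2).aemeasurable
  have hlin : ∫⁻ x in W, PP (SS u (hh 0) {1, 2} ∅ t x) =
      ∫⁻ ω, volume.restrict W {x : ℂ | ω ∈ SS u (hh 0) {1, 2} ∅ t x} ∂PP := by
    have a1 := Measure.prod_apply (μ := (volume : Measure ℂ).restrict W) (ν := PP) hm2
    have a2 := Measure.prod_apply_symm (μ := (volume : Measure ℂ).restrict W) (ν := PP) hm2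
    rw [a1] at a2
    exact a2
  -- the area for one loop
  have hst2 : Real.sqrt t * Real.sqrt t = t := Real.mul_self_sqrt ht.le
  have harea : ∀ᵐ ω ∂PP, volume.restrict W {x : ℂ | ω ∈ SS u (hh 0) {1, 2} ∅ t x} =
      ENNReal.ofReal (t / Real.sin α * (hs ω (u 1) * hs ω (u 2))) := by
    filter_upwards [hbd] with ω hω
    obtain ⟨R, hR⟩ := hω
    rw [Measure.restrict_apply' hWm]
    have hnull : ∀ᵐ x : ℂ, (ip (u 1) x ≠ 0 - Real.sqrt t * hs ω (u 1)) ∧
        ip (u 2) x ≠ 0 - Real.sqrt t * hs ω (u 2) := by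
      refine Filter.Eventually.and ?_ ?_
      · rw [ae_iff]
        simp only [not_not]
        exact H60.volume_line (u 1) (us_norm η1 η2 1 (Or.inl rfl)) _
      · rw [ae_iff]
        simp only [not_not]
        exact H60.volume_line (u 2) (us_norm η1 η2 2 (Or.inr rfl)) _
    have hset : ({x : ℂ | ω ∈ SS u (hh 0) {1, 2} ∅ t x} ∩ W : Set ℂ) =ᵐ[volume]
        ({x : ℂ | (-(Real.sqrt t * hs ω (u 1)) < ip (u 1) x ∧ ip (u 1) x < 0) ∧
          (-(Real.sqrt t * hs ω (u 2)) < ip (u 2) x ∧ ip (u 2) x < 0)} : Set ℂ) := by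
      filter_upwards [hnull] with x hx
      have hh0 : ∀ s : Fin 3, hh 0 s = 0 := by
        intro s
        unfold hh
        split_ifs <;> rfl
      have e1 := mem_AE_iff (u := u) (h := hh 0) (s := 1) (ω := ω) (x := x) ht hR
        (by rw [hh0]; exact hx.1)
      have e2 := mem_AE_iff (u := u) (h := hh 0) (s := 2) (ω := ω) (x := x) ht hR
        (by rw [hh0]; exact hx.2)
      rw [hh0] at e1 e2
      apply propext
      change (((∀ s ∈ ({1, 2} : Finset (Fin 3)), ω ∉ H16F.H8.AE (H60K.H25.Hs u (hh 0) s) t x) ∧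
        ∀ s ∈ (∅ : Finset (Fin 3)), ω ∈ H16F.H8.AE (H60K.H25.Hs u (hh 0) s) t x) ∧
          (ip (u 1) x < 0 ∧ ip (u 2) x < 0)) ↔ _
      constructor
      · rintro ⟨⟨h, -⟩, hw1, hw2⟩
        have g1 := h 1 (by decide)
        have g2 := h 2 (by decide)
        rw [e1, not_lt] at g1
        rw [e2, not_lt] at g2
        refine ⟨⟨lt_of_le_of_ne (by linarith) fun hc => hx.1 (by linarith), hw1⟩,
          lt_of_le_of_ne (by linarith) fun hc => hx.2 (by linarith), hw2⟩
      · rintro ⟨⟨g1, hw1⟩, g2, hw2⟩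
        refine ⟨⟨?_, fun s hs => absurd hs (Finset.notMem_empty s)⟩, hw1, hw2⟩
        intro s hs
        rw [Finset.mem_insert, Finset.mem_singleton] at hs
        rcases hs with rfl | rfl
        · rw [e1, not_lt]
          linarith
        · rw [e2, not_lt]
          linarith
    rw [measure_congr hset, area (u 1) (u 2) _ _ (by rw [hdet]; exact hsin.ne'), hdet,
      abs_of_pos (inv_pos.2 hsin), ← ENNReal.ofReal_mul (mul_nonneg hst.le (hnn _ _)),
      ← ENNReal.ofReal_mul (inv_pos.2 hsin).le]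
    congr 1
    rw [div_mul_eq_mul_div, eq_div_iff hsin.ne']
    have : (Real.sin α)⁻¹ * (Real.sqrt t * hs ω (u 1) * (Real.sqrt t * hs ω (u 2))) * Real.sin α =
        (Real.sqrt t * Real.sqrt t) * (hs ω (u 1) * hs ω (u 2)) * ((Real.sin α)⁻¹ * Real.sin α) := by
      ring
    rw [this, hst2, inv_mul_cancel₀ hsin.ne', mul_one]
  have hprod : Integrable (fun ω => hs ω (u 1) * hs ω (u 2)) PP := by
    have i1 := hint (u 1) 2
    have i2 := hint (u 2) 2
    refine (i1.add i2).mono' ((hmeas _).mul (hmeas _)).aestronglyMeasurable ?_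
    refine Eventually.of_forall fun ω => ?_
    rw [Real.norm_of_nonneg (mul_nonneg (hnn _ _) (hnn _ _))]
    change _ ≤ hs ω (u 1) ^ 2 + hs ω (u 2) ^ 2
    nlinarith [sq_nonneg (hs ω (u 1) - hs ω (u 2)), hnn (u 1) ω, hnn (u 2) ω,
      mul_nonneg (hnn (u 1) ω) (hnn (u 2) ω)]
  have hprod2 : Integrable (fun ω => t / Real.sin α * (hs ω (u 1) * hs ω (u 2))) PP :=
    hprod.const_mul _
  have hnn2 : ∀ ω, 0 ≤ t / Real.sin α * (hs ω (u 1) * hs ω (u 2)) := fun ω =>
    mul_nonneg (div_pos ht hsin).le (mul_nonneg (hnn _ _) (hnn _ _))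
  have hval : ∫⁻ x in W, PP (SS u (hh 0) {1, 2} ∅ t x) =
      ENNReal.ofReal (∫ ω, t / Real.sin α * (hs ω (u 1) * hs ω (u 2)) ∂PP) := by
    rw [hlin, lintegral_congr_ae harea,
      ofReal_integral_eq_lintegral_ofReal hprod2 (Eventually.of_forall hnn2)]
  have hI : Integrable (fun x => (PP (SS u (hh 0) {1, 2} ∅ t x)).toReal) (volume.restrict W) := by
    refine integrable_toReal_of_lintegral_ne_top hmeas1 ?_
    rw [hval]
    exact ENNReal.ofReal_ne_top
  refine ⟨?_, ?_, ?_⟩
  · rw [hfun]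
    exact hI.const_mul _
  · intro x
    rw [kME_diag u (hh 0) {1, 2} ∅ ht x]
    exact mul_nonneg hGpos.le ENNReal.toReal_nonneg
  · rw [hfun, integral_const_mul, integral_toReal hmeas1
      (Eventually.of_forall fun x => measure_lt_top _ _), hval,
      ENNReal.toReal_ofReal (integral_nonneg hnn2), integral_const_mul, hG]
    field_simp

end Pool.Agent.QUD.H21
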