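import Pool.Agent.QUD.StmtsF

/-!
QUD, row RFB: basic facts on the reflection in a line.
-/

set_option autoImplicit false

namespace Pool.Agent.QUD.H21

open MeasureTheory Complex Filter Topology Pool.Agent.H62T Pool.Agent.QUD

theorem rf_re (e : ℂ) (τ : ℝ) (x : ℂ) :
    (rf e τ x).re = x.re - 2 * (e.re * x.re + e.im * x.im - τ) * e.re := by
  unfold rf ip
  rw [Complex.sub_re, Complex.re_ofReal_mul]

theorem rf_im (e : ℂ) (τ : ℝ) (x : ℂ) :
    (rf e τ x).im = x.im - 2 * (e.re * x.re + e.im * x.im - τ) * e.im := by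
  unfold rf ip
  rw [Complex.sub_im, Complex.im_ofReal_mul]

theorem nsq (e : ℂ) (he : ‖e‖ = 1) : e.re * e.re + e.im * e.im = 1 := by
  have h := Complex.sq_norm e
  rw [he, Complex.normSq_apply] at h
  linarith

theorem rf_ip (e : ℂ) (τ : ℝ) (he : ‖e‖ = 1) (x : ℂ) :
    ip e (rf e τ x) - τ = -(ip e x - τ) := by
  have h := nsq e he
  unfold ip
  rw [rf_re, rf_im]
  linear_combination (-2 * (e.re * x.re + e.im * x.im - τ)) * h

theorem rf_rf (e : ℂ) (τ : ℝ) (he : ‖e‖ = 1) (x : ℂ) : rf e τ (rf e τ x) = x := by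
  have h := nsq e he
  apply Complex.ext
  · rw [rf_re, rf_re, rf_im]
    linear_combination (4 * (e.re * x.re + e.im * x.im - τ) * e.re) * h
  · rw [rf_im, rf_re, rf_im]
    linear_combination (4 * (e.re * x.re + e.im * x.im - τ) * e.im) * h

theorem rf_norm (e : ℂ) (τ : ℝ) (he : ‖e‖ = 1) (x y : ℂ) :
    ‖rf e τ x - rf e τ y‖ = ‖x - y‖ := by
  have h := nsq e he
  have h1 : ‖rf e τ x - rf e τ y‖ ^ 2 = ‖x - y‖ ^ 2 := by
    rw [Complex.sq_norm, Complex.sq_norm, Complex.normSq_apply, Complex.normSq_apply]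
    simp only [Complex.sub_re, Complex.sub_im]
    rw [rf_re, rf_im, rf_re, rf_im]
    linear_combination (4 * (e.re * (x.re - y.re) + e.im * (x.im - y.im)) ^ 2) * h
  exact (pow_left_inj₀ (norm_nonneg _) (norm_nonneg _) two_ne_zero).1 h1

theorem rf_norm2 (e : ℂ) (τ : ℝ) (he : ‖e‖ = 1) (x y : ℂ) :
    ‖x - rf e τ y‖ ^ 2 = ‖x - y‖ ^ 2 + 4 * (ip e x - τ) * (ip e y - τ) := by
  have h := nsq e he
  rw [Complex.sq_norm, Complex.sq_norm, Complex.normSq_apply, Complex.normSq_apply]
  simp only [Complex.sub_re, Complex.sub_im]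
  rw [rf_re, rf_im]
  unfold ip
  linear_combination (4 * (e.re * y.re + e.im * y.im - τ) ^ 2) * h

theorem rf_ip2 (e : ℂ) (τ : ℝ) (u x : ℂ) :
    ip u (rf e τ x) = ip u x - 2 * (ip e x - τ) * ip u e := by
  unfold ip
  rw [rf_re, rf_im]
  ring

theorem rf_cont (e : ℂ) (τ : ℝ) : Continuous (rf e τ) := by
  unfold rf ip
  fun_prop

/-- the linear part of the reflection -/
noncomputable def lin (e : ℂ) (he : ‖e‖ = 1) : ℂ ≃ₗᵢ[ℝ] ℂ where
  toFun := rf e 0
  invFun := rf e 0
  left_inv := rf_rf e 0 he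
  right_inv := rf_rf e 0 he
  map_add' x y := by
    apply Complex.ext
    · rw [Complex.add_re, rf_re, rf_re, rf_re, Complex.add_re, Complex.add_im]
      ring
    · rw [Complex.add_im, rf_im, rf_im, rf_im, Complex.add_re, Complex.add_im]
      ring
  map_smul' c x := by
    apply Complex.ext
    · rw [RingHom.id_apply, Complex.smul_re, rf_re, rf_re, Complex.smul_re, Complex.smul_im]
      simp only [smul_eq_mul]
      ring
    · rw [RingHom.id_apply, Complex.smul_im, rf_im, rf_im, Complex.smul_re, Complex.smul_im]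
      simp only [smul_eq_mul]
      ring
  norm_map' x := by
    have h1 := rf_norm e 0 he x 0
    have h2 : rf e 0 0 = 0 := by
      apply Complex.ext
      · rw [rf_re]
        simp
      · rw [rf_im]
        simp
    rw [h2, sub_zero, sub_zero] at h1
    exact h1

theorem rf_mp (e : ℂ) (τ : ℝ) (he : ‖e‖ = 1) : MeasurePreserving (rf e τ) volume volume := by
  have h1 := (measurePreserving_add_right (volume : Measure ℂ) (((2 * τ : ℝ) : ℂ) * e)).comp
    (lin e he).measurePreserving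
  have h2 : rf e τ = (fun x => x + ((2 * τ : ℝ) : ℂ) * e) ∘ (lin e he) := by
    funext x
    change rf e τ x = rf e 0 x + ((2 * τ : ℝ) : ℂ) * e
    apply Complex.ext
    · rw [Complex.add_re, rf_re, rf_re, Complex.re_ofReal_mul]
      ring
    · rw [Complex.add_im, rf_im, rf_im, Complex.im_ofReal_mul]
      ring
  rw [h2]
  exact h1

/-- the line -/
def line (e : ℂ) (τ : ℝ) : AffineSubspace ℝ ℂ where
  carrier := {x | ip e x = τ}
  smul_vsub_vadd_mem' := by
    intro c p1 p2 p3 h1 h2 h3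
    have h1' : ip e p1 = τ := h1
    have h2' : ip e p2 = τ := h2
    have h3' : ip e p3 = τ := h3
    change ip e (c • (p1 - p2) + p3) = τ
    unfold ip at *
    simp only [Complex.add_re, Complex.add_im, Complex.smul_re, Complex.smul_im, Complex.sub_re,
      Complex.sub_im, smul_eq_mul]
    linear_combination c * h1' - c * h2' + h3'

theorem line_null (e : ℂ) (τ : ℝ) (he : ‖e‖ = 1) : volume {x : ℂ | ip e x = τ} = 0 := by
  have h := nsq e he
  have h1 := Measure.addHaar_affineSubspace (volume : Measure ℂ) (line e τ) (by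
    intro h2
    have h3 : (((τ + 1 : ℝ) : ℂ) * e) ∈ line e τ := by
      rw [h2]
      trivial
    have h4 : ip e (((τ + 1 : ℝ) : ℂ) * e) = τ := h3
    unfold ip at h4
    rw [Complex.re_ofReal_mul, Complex.im_ofReal_mul] at h4
    have h5 : (τ + 1) * (e.re * e.re + e.im * e.im) = τ := by linarith
    rw [h] at h5
    linarith)
  exact h1

theorem up_open (e : ℂ) (τ : ℝ) : IsOpen (up e τ) := by
  unfold up ip
  exact isOpen_lt (by fun_prop) (by fun_prop)

theorem rf_int (e : ℂ) (τ : ℝ) (he : ‖e‖ = 1) (f : ℂ → ℝ) (hf : Integrable f) :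
    ∫ x, f x = ∫ x in up e τ, (f x + f (rf e τ x)) := by
  have hmp := rf_mp e τ he
  have hemb : MeasurableEmbedding (rf e τ) := by
    let E : ℂ ≃ₜ ℂ := ⟨⟨rf e τ, rf e τ, rf_rf e τ he, rf_rf e τ he⟩, rf_cont e τ, rf_cont e τ⟩
    exact E.measurableEmbedding
  have hfr : Integrable fun x => f (rf e τ x) := (hmp.integrable_comp_emb hemb).2 hf
  rw [integral_add hf.integrableOn hfr.integrableOn,
    ← integral_add_compl (up_open e τ).measurableSet hf]
  congr 1
  have h1 : (up e τ)ᶜ =ᵐ[volume] ({x | ip e x < τ} : Set ℂ) := by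
    have h2 : ∀ᵐ x ∂(volume : Measure ℂ), ip e x ≠ τ := by
      rw [ae_iff]
      simpa using line_null e τ he
    filter_upwards [h2] with x hx
    apply propext
    change ¬ (τ < ip e x) ↔ ip e x < τ
    rw [not_lt]
    exact ⟨fun h => lt_of_le_of_ne h hx, le_of_lt⟩
  have h4 : ∫ x in (up e τ)ᶜ, f x = ∫ x in {x | ip e x < τ}, f x := setIntegral_congr_set h1
  have h5 := hmp.setIntegral_preimage_emb hemb f {x | ip e x < τ}
  rw [h4, ← h5]
  have h3 : rf e τ ⁻¹' {x | ip e x < τ} = up e τ := by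
    ext x
    change ip e (rf e τ x) < τ ↔ τ < ip e x
    have := rf_ip e τ he x
    constructor <;> intro h <;> linarith
  rw [h3]

theorem rfb : RfbStmt := fun e τ he =>
  ⟨rf_ip e τ he, rf_rf e τ he, rf_norm e τ he, rf_norm2 e τ he, rf_ip2 e τ, rf_cont e τ,
    rf_mp e τ he, rf_int e τ he⟩

end Pool.Agent.QUD.H21
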